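import Pool.Agent.R544.TF.Defs

/-!
# 2-factors with one directed cycle: the combinatorial core of the reduction
-/

set_option autoImplicit false
set_option linter.unusedSectionVars false
set_option linter.unusedSimpArgs false

namespace Pool.Agent.R544.TF

/-! ### Cycles -/

theorem IsCycle.pred {r : ℕ → ℕ → Prop} {c : List ℕ} (h : IsCycle r c) {v : ℕ} (hv : v ∈ c) :
    ∃ u ∈ c, r u v := by
  obtain ⟨h1, h2, h3⟩ := h
  obtain ⟨i, hi, rfl⟩ := List.getElem_of_mem hv
  have hk : (i + c.length - 1) % c.length < c.length := Nat.mod_lt _ (by omega)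
  have h4 := h3 _ hk
  have h5 : ((i + c.length - 1) % c.length + 1) % c.length = i := by
    rw [Nat.mod_add_mod, show i + c.length - 1 + 1 = i + c.length from by omega,
      Nat.add_mod_right, Nat.mod_eq_of_lt hi]
  rw [h5, List.getD_eq_getElem _ _ hk, List.getD_eq_getElem _ _ hi] at h4
  exact ⟨_, List.getElem_mem hk, h4⟩

theorem IsCycle.nbrs {r : ℕ → ℕ → Prop} {c : List ℕ} (h : IsCycle r c)
    (hs : ∀ u v, r u v → r v u) {v : ℕ} (hv : v ∈ c) :
    ∃ x ∈ c, ∃ y ∈ c, x ≠ y ∧ r v x ∧ r v y := by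
  obtain ⟨h1, h2, h3⟩ := h
  obtain ⟨i, hi, rfl⟩ := List.getElem_of_mem hv
  have hk : (i + c.length - 1) % c.length < c.length := Nat.mod_lt _ (by omega)
  have hk' : (i + 1) % c.length < c.length := Nat.mod_lt _ (by omega)
  have h4 := h3 _ hk
  have h5 : ((i + c.length - 1) % c.length + 1) % c.length = i := by
    rw [Nat.mod_add_mod, show i + c.length - 1 + 1 = i + c.length from by omega,
      Nat.add_mod_right, Nat.mod_eq_of_lt hi]
  rw [h5, List.getD_eq_getElem _ _ hk, List.getD_eq_getElem _ _ hi] at h4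
  have h6 := h3 _ hi
  rw [List.getD_eq_getElem _ _ hk', List.getD_eq_getElem _ _ hi] at h6
  refine ⟨_, List.getElem_mem hk', _, List.getElem_mem hk, ?_, h6, hs _ _ h4⟩
  intro he
  have h7 := (List.Nodup.getElem_inj_iff h2).1 he
  by_cases hc : i + 1 = c.length
  · rw [hc, Nat.mod_self, show i + c.length - 1 = i - 1 + c.length from by omega,
      Nat.add_mod_right, Nat.mod_eq_of_lt (by omega)] at h7
    omega
  · rw [Nat.mod_eq_of_lt (show i + 1 < c.length by omega)] at h7
    by_cases hi0 : i = 0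
    · subst hi0
      rw [Nat.mod_eq_of_lt (by omega)] at h7
      omega
    · rw [show i + c.length - 1 = i - 1 + c.length from by omega,
        Nat.add_mod_right, Nat.mod_eq_of_lt (by omega)] at h7
      omega

/-! ### The digraph -/

section Graph

variable (m : ℕ) (con : ℕ → ℕ → Prop)

/-- The cell `(o, k)` has its own gadget. -/
def Ow (o k : ℕ) : Prop := ¬ con o k ∨ o < k

open Classical in
/-- The partner of the cell `(o, k)` in its gadget. -/
noncomputable def pv (o k : ℕ) : ℕ :=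
  if con o k then 5 * (k * (3 * m) + o) else 5 * (o * (3 * m) + k) + 3

/-- The arcs. -/
def Arc (u v : ℕ) : Prop :=
  (∃ o < 3 * m, u = 5 * (o / 3) + 4 ∧ v = 5 * (o * (3 * m))) ∨
  (∃ o < 3 * m, ∃ k < 3 * m, k + 1 < 3 * m ∧ u = 5 * (o * (3 * m) + k) ∧
    v = 5 * (o * (3 * m) + (k + 1))) ∨
  (∃ o < 3 * m, u = 5 * (o * (3 * m) + (3 * m - 1)) ∧ v = 5 * ((o / 3 + 1) % m) + 4) ∨
  (∃ o < 3 * m, ∃ k < 3 * m, Ow con o k ∧ u = 5 * (o * (3 * m) + k) + 1 ∧
    v = 5 * (o * (3 * m) + k) + 2) ∨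
  (∃ o < 3 * m, ∃ k < 3 * m, Ow con o k ∧
    (u = 5 * (o * (3 * m) + k) + 1 ∨ u = 5 * (o * (3 * m) + k) + 2) ∧
    (v = 5 * (o * (3 * m) + k) ∨ v = pv m con o k))

/-- The vertices. -/
def InV (v : ℕ) : Prop :=
  (∃ j < m, v = 5 * j + 4) ∨ (∃ o < 3 * m, ∃ k < 3 * m, v = 5 * (o * (3 * m) + k) ∨
    (Ow con o k ∧ (v = 5 * (o * (3 * m) + k) + 1 ∨ v = 5 * (o * (3 * m) + k) + 2)) ∨
    (¬ con o k ∧ v = 5 * (o * (3 * m) + k) + 3))

variable {m con}

theorem cell_inj {N a b a' b' : ℕ} (hb : b < N) (hb' : b' < N) (h : a * N + b = a' * N + b') :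
    a = a' ∧ b = b' := by
  have h1 : (a * N + b) / N = a := by
    rw [Nat.mul_comm, Nat.mul_add_div (by omega), Nat.div_eq_of_lt hb, Nat.add_zero]
  have h2 : (a' * N + b') / N = a' := by
    rw [Nat.mul_comm, Nat.mul_add_div (by omega), Nat.div_eq_of_lt hb', Nat.add_zero]
  have h3 : (a * N + b) % N = b := by
    rw [Nat.mul_comm, Nat.mul_add_mod, Nat.mod_eq_of_lt hb]
  have h4 : (a' * N + b') % N = b' := by
    rw [Nat.mul_comm, Nat.mul_add_mod, Nat.mod_eq_of_lt hb']
  rw [h] at h1 h3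
  exact ⟨h1.symm.trans h2, h3.symm.trans h4⟩

theorem pv_mod (o k : ℕ) : pv m con o k % 5 = 0 ∨ pv m con o k % 5 = 3 := by
  unfold pv
  split_ifs <;> omega

theorem fwd (hcs : ∀ o k, con o k → con k o) (hir : ∀ o, ¬ con o o) {c : List ℕ} {cs : List (List ℕ)}
    (h1 : IsCycle (Arc m con) c)
    (h2 : ∀ d ∈ cs, IsCycle (fun u v => Arc m con u v ∨ Arc m con v u) d)
    (h3 : (c :: cs).flatten.Nodup) (h4 : ∀ v, InV m con v → v ∈ (c :: cs).flatten) :
    ∃ g : ℕ → ℕ, (∀ j < m, g j < 3 * m ∧ g j / 3 = j) ∧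
      ∀ i < m, ∀ j < m, ¬ con (g i) (g j) := by
  -- no gadget vertices on the directed cycle
  have n1 : ∀ v ∈ c, v % 5 ≠ 1 := by
    intro v hv hv1
    obtain ⟨u, hu, h⟩ := h1.pred hv
    rcases h with ⟨o, ho, h, h'⟩ | ⟨o, ho, k, hk, hk', h, h'⟩ | ⟨o, ho, h, h'⟩ |
      ⟨o, ho, k, hk, hw, h, h'⟩ | ⟨o, ho, k, hk, hw, h, h' | h'⟩
    · omega
    · omega
    · omega
    · omega
    · omega
    · have := pv_mod (m := m) (con := con) o k
      omega
  have n2 : ∀ v ∈ c, v % 5 ≠ 2 := by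
    intro v hv hv1
    obtain ⟨u, hu, h⟩ := h1.pred hv
    rcases h with ⟨o, ho, h, h'⟩ | ⟨o, ho, k, hk, hk', h, h'⟩ | ⟨o, ho, h, h'⟩ |
      ⟨o, ho, k, hk, hw, h, h'⟩ | ⟨o, ho, k, hk, hw, h, h' | h'⟩
    · omega
    · omega
    · omega
    · exact n1 u hu (by omega)
    · omega
    · have := pv_mod (m := m) (con := con) o k
      omega
  -- predecessors
  have p0 : ∀ o < 3 * m, 5 * (o * (3 * m)) ∈ c → 5 * (o / 3) + 4 ∈ c := by
    intro o ho hv
    obtain ⟨u, hu, h⟩ := h1.pred hv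
    rcases h with ⟨o', ho', h, h'⟩ | ⟨o', ho', k, hk, hk', h, h'⟩ | ⟨o', ho', h, h'⟩ |
      ⟨o', ho', k, hk, hw, h, h'⟩ | ⟨o', ho', k, hk, hw, h, h'⟩
    · obtain ⟨e, -⟩ := cell_inj (N := 3 * m) (a := o) (b := 0) (a' := o') (b' := 0)
        (by omega) (by omega) (by omega)
      rw [e, ← h]
      exact hu
    · obtain ⟨-, e⟩ := cell_inj (N := 3 * m) (a := o) (b := 0) (a' := o') (b' := k + 1)
        (by omega) (by omega) (by omega)
      omega
    · omega
    · omega
    · rcases h with h | h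
      · exact absurd (by omega) (n1 u hu)
      · exact absurd (by omega) (n2 u hu)
  have p1 : ∀ o < 3 * m, ∀ k, k + 1 < 3 * m → 5 * (o * (3 * m) + (k + 1)) ∈ c →
      5 * (o * (3 * m) + k) ∈ c := by
    intro o ho k hk hv
    obtain ⟨u, hu, h⟩ := h1.pred hv
    rcases h with ⟨o', ho', h, h'⟩ | ⟨o', ho', k', hk1, hk', h, h'⟩ | ⟨o', ho', h, h'⟩ |
      ⟨o', ho', k', hk', hw, h, h'⟩ | ⟨o', ho', k', hk', hw, h, h'⟩
    · obtain ⟨-, e⟩ := cell_inj (N := 3 * m) (a := o) (b := k + 1) (a' := o') (b' := 0)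
        (by omega) (by omega) (by omega)
      omega
    · obtain ⟨e, e'⟩ := cell_inj (N := 3 * m) (a := o) (b := k + 1) (a' := o') (b' := k' + 1)
        (by omega) (by omega) (by omega)
      obtain rfl : k = k' := by omega
      rw [e, ← h]
      exact hu
    · omega
    · omega
    · rcases h with h | h
      · exact absurd (by omega) (n1 u hu)
      · exact absurd (by omega) (n2 u hu)
  have p2 : ∀ o < 3 * m, ∀ k, k < 3 * m → 5 * (o * (3 * m) + k) ∈ c →
      5 * (o / 3) + 4 ∈ c := by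
    intro o ho k
    induction k with
    | zero => exact fun _ hv => p0 o ho hv
    | succ k ih => exact fun hk hv => ih (by omega) (p1 o ho k hk hv)
  have p3 : ∀ j, 5 * j + 4 ∈ c → ∃ o < 3 * m, (o / 3 + 1) % m = j ∧ 5 * (o / 3) + 4 ∈ c ∧
      ∀ k < 3 * m, 5 * (o * (3 * m) + k) ∈ c := by
    intro j hv
    obtain ⟨u, hu, h⟩ := h1.pred hv
    rcases h with ⟨o', ho', h, h'⟩ | ⟨o', ho', k', hk1, hk', h, h'⟩ | ⟨o', ho', h, h'⟩ |
      ⟨o', ho', k', hk', hw, h, h'⟩ | ⟨o', ho', k', hk', hw, h, h'⟩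
    · omega
    · omega
    · rw [h] at hu
      have hall : ∀ d, ∀ k < 3 * m, k + d = 3 * m - 1 → 5 * (o' * (3 * m) + k) ∈ c := by
        intro d
        induction d with
        | zero =>
          intro k _ hk
          obtain rfl : k = 3 * m - 1 := by omega
          exact hu
        | succ d ih =>
          intro k hk hkd
          exact p1 o' ho' k (by omega) (ih (k + 1) (by omega) (by omega))
      refine ⟨o', ho', by omega, p2 o' ho' _ (by omega) hu, fun k hk => ?_⟩
      exact hall (3 * m - 1 - k) k hk (by omega)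
    · omega
    · exfalso
      rcases h with h | h
      · exact n1 u hu (by omega)
      · exact n2 u hu (by omega)
  -- all junctions are on the cycle
  have hm : 0 < m ∧ ∃ j < m, 5 * j + 4 ∈ c := by
    have hne : c ≠ [] := by
      rintro rfl
      have := h1.1
      simp at this
    obtain ⟨v, hv⟩ := List.exists_mem_of_ne_nil c hne
    obtain ⟨u, hu, h⟩ := h1.pred hv
    rcases h with ⟨o', ho', h, h'⟩ | ⟨o', ho', k', hk1, hk', h, h'⟩ | ⟨o', ho', h, h'⟩ |
      ⟨o', ho', k', hk', hw, h, h'⟩ | ⟨o', ho', k', hk', hw, h, h'⟩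
    · exact ⟨by omega, o' / 3, by omega, h ▸ hu⟩
    · rw [h] at hu
      exact ⟨by omega, o' / 3, by omega, p2 o' ho' k' (by omega) hu⟩
    · rw [h] at hu
      exact ⟨by omega, o' / 3, by omega, p2 o' ho' _ (by omega) hu⟩
    · exact absurd (by omega) (n1 u hu)
    · exfalso
      rcases h with h | h
      · exact n1 u hu (by omega)
      · exact n2 u hu (by omega)
  obtain ⟨hm, j₀, hj₀, hj₀c⟩ := hm
  have s1 : ∀ j, j + 1 < m → 5 * (j + 1) + 4 ∈ c → 5 * j + 4 ∈ c := by
    intro j hj hv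
    obtain ⟨o, ho, h5, h6, -⟩ := p3 _ hv
    by_cases hc : o / 3 + 1 = m
    · rw [hc, Nat.mod_self] at h5
      omega
    · rw [Nat.mod_eq_of_lt (by omega)] at h5
      obtain rfl : o / 3 = j := by omega
      exact h6
  have s2 : ∀ d, ∀ j, j + d < m → 5 * (j + d) + 4 ∈ c → 5 * j + 4 ∈ c := by
    intro d
    induction d with
    | zero => exact fun j _ h => h
    | succ d ih => exact fun j hj h => ih j (by omega) (s1 (j + d) (by omega) h)
  have s3 : 5 * 0 + 4 ∈ c := s2 j₀ 0 (by omega) (by rw [Nat.zero_add]; exact hj₀c)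
  have s4 : 5 * (m - 1) + 4 ∈ c := by
    obtain ⟨o, ho, h5, h6, -⟩ := p3 _ s3
    by_cases hc : o / 3 + 1 = m
    · obtain e : o / 3 = m - 1 := by omega
      rw [← e]
      exact h6
    · rw [Nat.mod_eq_of_lt (by omega)] at h5
      omega
  have s5 : ∀ j < m, 5 * j + 4 ∈ c := by
    intro j hj
    refine s2 (m - 1 - j) j (by omega) ?_
    rw [show j + (m - 1 - j) = m - 1 from by omega]
    exact s4
  -- the chosen occurrences
  have hch : ∀ j, j < m → ∃ o < 3 * m, o / 3 = j ∧ ∀ k < 3 * m, 5 * (o * (3 * m) + k) ∈ c := by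
    intro j hj
    obtain ⟨o, ho, h5, -, h6⟩ := p3 _ (s5 ((j + 1) % m) (Nat.mod_lt _ hm))
    refine ⟨o, ho, ?_, h6⟩
    have e1 : o / 3 < m := by omega
    by_cases hc : o / 3 + 1 = m <;> by_cases hc' : j + 1 = m
    · omega
    · rw [hc, Nat.mod_self, Nat.mod_eq_of_lt (by omega)] at h5
      omega
    · rw [hc', Nat.mod_self, Nat.mod_eq_of_lt (by omega)] at h5
      omega
    · rw [Nat.mod_eq_of_lt (by omega), Nat.mod_eq_of_lt (by omega)] at h5
      omega
  choose! g hg1 hg2 hg3 using hch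
  refine ⟨g, fun j hj => ⟨hg1 j hj, hg2 j hj⟩, ?_⟩
  -- the gadgets
  have key : ∀ o < 3 * m, ∀ k < 3 * m, con o k → o < k → 5 * (o * (3 * m) + k) ∈ c →
      5 * (k * (3 * m) + o) ∈ c → False := by
    intro o ho k hk hc hok hw hw'
    have hV : InV m con (5 * (o * (3 * m) + k) + 1) :=
      Or.inr ⟨o, ho, k, hk, Or.inr (Or.inl ⟨Or.inr hok, Or.inl rfl⟩)⟩
    have hmem := h4 _ hV
    rw [List.flatten_cons, List.mem_append] at hmem
    rcases hmem with hmem | hmem
    · exact n1 _ hmem (by omega)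
    · rw [List.mem_flatten] at hmem
      obtain ⟨d, hd, hmem⟩ := hmem
      have hdis : ∀ x ∈ d, x ∉ c := by
        intro x hx hxc
        rw [List.flatten_cons, List.nodup_append'] at h3
        exact h3.2.2 hxc (List.mem_flatten.2 ⟨d, hd, hx⟩)
      have hnb : ∀ x, (Arc m con (5 * (o * (3 * m) + k) + 1) x ∨
          Arc m con x (5 * (o * (3 * m) + k) + 1)) → x ∈ d →
          x = 5 * (o * (3 * m) + k) + 2 := by
        intro x hx hxd
        rcases hx with hx | hx
        · rcases hx with ⟨o', ho', h, h'⟩ | ⟨o', ho', k', hk1, hk', h, h'⟩ | ⟨o', ho', h, h'⟩ |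
            ⟨o', ho', k', hk', -, h, h'⟩ | ⟨o', ho', k', hk', -, h | h, h'⟩
          · omega
          · omega
          · omega
          · omega
          · obtain ⟨rfl, rfl⟩ := cell_inj (N := 3 * m) (a := o) (b := k) (a' := o') (b' := k')
              (by omega) (by omega) (by omega)
            rcases h' with rfl | rfl
            · exact absurd hw (hdis _ hxd)
            · rw [pv, if_pos hc] at hxd
              exact absurd hw' (hdis _ hxd)
          · omega
        · exfalso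
          rcases hx with ⟨o', ho', h, h'⟩ | ⟨o', ho', k', hk1, hk', h, h'⟩ | ⟨o', ho', h, h'⟩ |
            ⟨o', ho', k', hk', hw, h, h'⟩ | ⟨o', ho', k', hk', hw, h, h' | h'⟩
          · omega
          · omega
          · omega
          · omega
          · omega
          · have := pv_mod (m := m) (con := con) o' k'
            omega
      obtain ⟨x, hx, y, hy, hxy, hx', hy'⟩ :=
        (h2 d hd).nbrs (fun u v h => h.symm) hmem
      exact hxy ((hnb x hx' hx).trans (hnb y hy' hy).symm)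
  intro i hi j hj hc
  rcases lt_trichotomy (g i) (g j) with h | h | h
  · exact key _ (hg1 i hi) _ (hg1 j hj) hc h (hg3 i hi _ (hg1 j hj)) (hg3 j hj _ (hg1 i hi))
  · rw [h] at hc
    exact hir _ hc
  · exact key _ (hg1 j hj) _ (hg1 i hi) (hcs _ _ hc) h (hg3 j hj _ (hg1 i hi))
      (hg3 i hi _ (hg1 j hj))

theorem arc_ne {u v : ℕ} (h : Arc m con u v) : u ≠ v := by
  rcases h with ⟨o, ho, h, h'⟩ | ⟨o, ho, k, hk, hk', h, h'⟩ | ⟨o, ho, h, h'⟩ |
    ⟨o, ho, k, hk, hw, h, h'⟩ | ⟨o, ho, k, hk, hw, h, h' | h'⟩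
  · omega
  · omega
  · omega
  · omega
  · omega
  · have := pv_mod (m := m) (con := con) o k
    omega

theorem inV_w {o k : ℕ} (ho : o < 3 * m) (hk : k < 3 * m) :
    InV m con (5 * (o * (3 * m) + k)) := Or.inr ⟨o, ho, k, hk, Or.inl rfl⟩

theorem inV_pv {o k : ℕ} (ho : o < 3 * m) (hk : k < 3 * m) : InV m con (pv m con o k) := by
  unfold pv
  split_ifs with h
  · exact inV_w hk ho
  · exact Or.inr ⟨o, ho, k, hk, Or.inr (Or.inr ⟨h, rfl⟩)⟩

theorem inV_a {o k : ℕ} (ho : o < 3 * m) (hk : k < 3 * m) (h : Ow con o k) :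
    InV m con (5 * (o * (3 * m) + k) + 1) := Or.inr ⟨o, ho, k, hk, Or.inr (Or.inl ⟨h, Or.inl rfl⟩)⟩

theorem inV_b {o k : ℕ} (ho : o < 3 * m) (hk : k < 3 * m) (h : Ow con o k) :
    InV m con (5 * (o * (3 * m) + k) + 2) := Or.inr ⟨o, ho, k, hk, Or.inr (Or.inl ⟨h, Or.inr rfl⟩)⟩

theorem arc_inV {u v : ℕ} (h : Arc m con u v) : InV m con u ∧ InV m con v := by
  rcases h with ⟨o, ho, h, h'⟩ | ⟨o, ho, k, hk, hk', h, h'⟩ | ⟨o, ho, h, h'⟩ |
    ⟨o, ho, k, hk, hw, h, h'⟩ | ⟨o, ho, k, hk, hw, h, h'⟩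
  · rw [h, h']
    exact ⟨Or.inl ⟨o / 3, by omega, rfl⟩, inV_w (k := 0) ho (by omega)⟩
  · rw [h, h']
    exact ⟨inV_w ho hk, inV_w ho hk'⟩
  · rw [h, h']
    exact ⟨inV_w ho (by omega), Or.inl ⟨_, Nat.mod_lt _ (by omega), rfl⟩⟩
  · rw [h, h']
    exact ⟨inV_a ho hk hw, inV_b ho hk hw⟩
  · constructor
    · rcases h with h | h <;> rw [h]
      · exact inV_a ho hk hw
      · exact inV_b ho hk hw
    · rcases h' with h' | h' <;> rw [h']
      · exact inV_w ho hk
      · exact inV_pv ho hk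

end Graph

/-! ### The 2-factor -/

section Build

variable (m : ℕ) (con : ℕ → ℕ → Prop) (g : ℕ → ℕ)

/-- The entries of the directed cycle. -/
def fc (t : ℕ) : ℕ :=
  if t % (3 * m + 1) = 0 then 5 * (t / (3 * m + 1)) + 4
  else 5 * (g (t / (3 * m + 1)) * (3 * m) + (t % (3 * m + 1) - 1))

/-- The directed cycle. -/
def cc : List ℕ := (List.range (m * (3 * m + 1))).map (fc m g)

/-- The occurrence `o` is chosen. -/
def Sel (o : ℕ) : Prop := g (o / 3) = o

open Classical in
/-- The cycle in the gadget of the cell `(o, k)`. -/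
noncomputable def gad (o k : ℕ) : List (List ℕ) :=
  if Ow con o k then
    if Sel g o then [[5 * (o * (3 * m) + k) + 1, 5 * (o * (3 * m) + k) + 2, pv m con o k]]
    else if con o k ∧ Sel g k then
      [[5 * (o * (3 * m) + k), 5 * (o * (3 * m) + k) + 1, 5 * (o * (3 * m) + k) + 2]]
    else [[5 * (o * (3 * m) + k), 5 * (o * (3 * m) + k) + 1, pv m con o k,
      5 * (o * (3 * m) + k) + 2]]
  else []

/-- The other cycles. -/
noncomputable def ccs : List (List ℕ) :=
  (List.range (3 * m)).flatMap (fun o => (List.range (3 * m)).flatMap (fun k => gad m con g o k))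

variable {m con g}

theorem divmod {N a b : ℕ} (hb : b < N) : (a * N + b) / N = a ∧ (a * N + b) % N = b := by
  constructor
  · rw [Nat.mul_comm, Nat.mul_add_div (by omega), Nat.div_eq_of_lt hb, Nat.add_zero]
  · rw [Nat.mul_comm, Nat.mul_add_mod, Nat.mod_eq_of_lt hb]

theorem fc_zero (j : ℕ) : fc m g (j * (3 * m + 1) + 0) = 5 * j + 4 := by
  obtain ⟨h1, h2⟩ := divmod (N := 3 * m + 1) (a := j) (b := 0) (by omega)
  unfold fc
  rw [h1, h2, if_pos rfl]

theorem fc_succ (j : ℕ) {k : ℕ} (hk : k < 3 * m) :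
    fc m g (j * (3 * m + 1) + (k + 1)) = 5 * (g j * (3 * m) + k) := by
  obtain ⟨h1, h2⟩ := divmod (N := 3 * m + 1) (a := j) (b := k + 1) (by omega)
  unfold fc
  rw [h1, h2, if_neg (by omega), Nat.add_sub_cancel]

theorem exists_divmod {t : ℕ} (ht : t < m * (3 * m + 1)) :
    ∃ j < m, ∃ r < 3 * m + 1, t = j * (3 * m + 1) + r :=
  ⟨t / (3 * m + 1), (Nat.div_lt_iff_lt_mul (by omega)).2 ht, t % (3 * m + 1),
    Nat.mod_lt _ (by omega), by rw [Nat.mul_comm]; exact (Nat.div_add_mod _ _).symm⟩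

theorem lt_of_divmod {j r : ℕ} (hj : j < m) (hr : r < 3 * m + 1) :
    j * (3 * m + 1) + r < m * (3 * m + 1) :=
  calc j * (3 * m + 1) + r < j * (3 * m + 1) + (3 * m + 1) := by omega
    _ = (j + 1) * (3 * m + 1) := by ring
    _ ≤ m * (3 * m + 1) := Nat.mul_le_mul_right _ hj

theorem mem_cc {v : ℕ} : v ∈ cc m g ↔
    (∃ j < m, v = 5 * j + 4) ∨ ∃ j < m, ∃ k < 3 * m, v = 5 * (g j * (3 * m) + k) := by
  unfold cc
  rw [List.mem_map]
  constructor
  · rintro ⟨t, ht, rfl⟩
    obtain ⟨j, hj, r, hr, rfl⟩ := exists_divmod (List.mem_range.1 ht)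
    cases r with
    | zero => exact Or.inl ⟨j, hj, fc_zero j⟩
    | succ r => exact Or.inr ⟨j, hj, r, by omega, fc_succ j (by omega)⟩
  · rintro (⟨j, hj, rfl⟩ | ⟨j, hj, k, hk, rfl⟩)
    · exact ⟨j * (3 * m + 1) + 0, List.mem_range.2 (lt_of_divmod hj (by omega)), fc_zero j⟩
    · exact ⟨j * (3 * m + 1) + (k + 1), List.mem_range.2 (lt_of_divmod hj (by omega)),
        fc_succ j hk⟩

variable (hm : 0 < m) (hg : ∀ j < m, g j < 3 * m ∧ g j / 3 = j)
  (hcs : ∀ o k, con o k → con k o) (hir : ∀ o, ¬ con o o)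
  (hcon : ∀ i < m, ∀ j < m, ¬ con (g i) (g j))

include hg in
theorem nodup_cc : (cc m g).Nodup := by
  unfold cc
  refine List.Nodup.map_on ?_ List.nodup_range
  intro t ht t' ht' h
  obtain ⟨j, hj, r, hr, rfl⟩ := exists_divmod (List.mem_range.1 ht)
  obtain ⟨j', hj', r', hr', rfl⟩ := exists_divmod (List.mem_range.1 ht')
  cases r with
  | zero =>
    rw [fc_zero] at h
    cases r' with
    | zero =>
      rw [fc_zero] at h
      obtain rfl : j = j' := by omega
      rfl
    | succ r' =>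
      rw [fc_succ _ (by omega)] at h
      omega
  | succ r =>
    rw [fc_succ _ (by omega)] at h
    cases r' with
    | zero =>
      rw [fc_zero] at h
      omega
    | succ r' =>
      rw [fc_succ _ (by omega)] at h
      obtain ⟨e1, rfl⟩ := cell_inj (N := 3 * m) (a := g j) (b := r) (a' := g j') (b' := r')
        (by omega) (by omega) (by omega)
      have h1 := (hg j hj).2
      have h2 := (hg j' hj').2
      obtain rfl : j = j' := by rw [← h1, ← h2, e1]
      rfl

include hm hg in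
theorem isCycle_cc : IsCycle (Arc m con) (cc m g) := by
  have hlen : (cc m g).length = m * (3 * m + 1) := by simp [cc]
  have hL : 4 ≤ m * (3 * m + 1) := by
    calc 4 = 1 * (3 * 1 + 1) := by norm_num
      _ ≤ m * (3 * m + 1) := Nat.mul_le_mul (by omega) (by omega)
  refine ⟨by omega, nodup_cc hg, ?_⟩
  intro t ht
  rw [hlen] at ht ⊢
  have hget : ∀ s < m * (3 * m + 1), (cc m g).getD s 0 = fc m g s := by
    intro s hs
    rw [List.getD_eq_getElem _ _ (by rw [hlen]; exact hs)]
    simp [cc]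
  rw [hget t ht, hget _ (Nat.mod_lt _ (by omega))]
  obtain ⟨j, hj, r, hr, rfl⟩ := exists_divmod ht
  obtain ⟨hg1, hg2⟩ := hg j hj
  by_cases hlast : r = 3 * m
  · subst hlast
    obtain ⟨k, hk⟩ : ∃ k, 3 * m = k + 1 := ⟨3 * m - 1, by omega⟩
    have e1 : fc m g (j * (3 * m + 1) + 3 * m) = 5 * (g j * (3 * m) + k) := by
      have := fc_succ (m := m) (g := g) j (k := k) (by omega)
      rwa [← hk] at this
    rw [e1]
    right; right; left
    refine ⟨g j, hg1, by rw [show 3 * m - 1 = k from by omega], ?_⟩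
    rw [hg2]
    by_cases hjm : j + 1 = m
    · have e2 : j * (3 * m + 1) + 3 * m + 1 = m * (3 * m + 1) := by
        rw [show m * (3 * m + 1) = (j + 1) * (3 * m + 1) from by rw [hjm]]
        ring
      rw [e2, Nat.mod_self, hjm, Nat.mod_self]
      have := fc_zero (m := m) (g := g) 0
      simpa using this
    · have e2 : j * (3 * m + 1) + 3 * m + 1 = (j + 1) * (3 * m + 1) + 0 := by ring
      rw [e2, Nat.mod_eq_of_lt (lt_of_divmod (by omega) (by omega)), fc_zero,
        Nat.mod_eq_of_lt (by omega)]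
  · rw [show j * (3 * m + 1) + r + 1 = j * (3 * m + 1) + (r + 1) from by ring,
      Nat.mod_eq_of_lt (lt_of_divmod hj (by omega))]
    cases r with
    | zero =>
      rw [fc_zero, fc_succ _ (by omega)]
      left
      exact ⟨g j, hg1, by rw [hg2], by rw [Nat.add_zero]⟩
    | succ r =>
      rw [fc_succ _ (by omega), fc_succ _ (by omega)]
      right; left
      exact ⟨g j, hg1, r, by omega, by omega, rfl, rfl⟩

theorem pv_ne_w (hir : ∀ o, ¬ con o o) {o k : ℕ} (ho : o < 3 * m) (hk : k < 3 * m) :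
    pv m con o k ≠ 5 * (o * (3 * m) + k) := by
  unfold pv
  split_ifs with h
  · intro he
    obtain ⟨rfl, -⟩ := cell_inj (N := 3 * m) (a := k) (b := o) (a' := o) (b' := k)
      (by omega) (by omega) (by omega)
    exact hir _ h
  · omega

include hir in
theorem isCycle_gad {o k : ℕ} (ho : o < 3 * m) (hk : k < 3 * m) {d : List ℕ}
    (hd : d ∈ gad m con g o k) : IsCycle (fun u v => Arc m con u v ∨ Arc m con v u) d := by
  have hp := pv_ne_w (m := m) hir ho hk
  have hp' := pv_mod (m := m) (con := con) o k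
  unfold gad at hd
  split_ifs at hd with h1 h2 h3
  · have a1 : Arc m con (5 * (o * (3 * m) + k) + 1) (5 * (o * (3 * m) + k) + 2) :=
      Or.inr (Or.inr (Or.inr (Or.inl ⟨o, ho, k, hk, h1, rfl, rfl⟩)))
    have a4 : Arc m con (5 * (o * (3 * m) + k) + 1) (pv m con o k) :=
      Or.inr (Or.inr (Or.inr (Or.inr ⟨o, ho, k, hk, h1, Or.inl rfl, Or.inr rfl⟩)))
    have a5 : Arc m con (5 * (o * (3 * m) + k) + 2) (pv m con o k) :=
      Or.inr (Or.inr (Or.inr (Or.inr ⟨o, ho, k, hk, h1, Or.inr rfl, Or.inr rfl⟩)))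
    rw [List.mem_singleton] at hd
    subst hd
    refine ⟨by simp, ?_, ?_⟩
    · simp only [List.nodup_cons, List.mem_cons, List.not_mem_nil, or_false, not_or,
        not_false_eq_true, List.nodup_nil, and_true]
      omega
    · intro i hi
      simp only [List.length_cons, List.length_nil, zero_add, Nat.reduceAdd] at hi ⊢
      obtain rfl | rfl | rfl : i = 0 ∨ i = 1 ∨ i = 2 := by omega
      · exact Or.inl a1
      · exact Or.inl a5
      · exact Or.inr a4
  · have a1 : Arc m con (5 * (o * (3 * m) + k) + 1) (5 * (o * (3 * m) + k) + 2) :=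
      Or.inr (Or.inr (Or.inr (Or.inl ⟨o, ho, k, hk, h1, rfl, rfl⟩)))
    have a2 : Arc m con (5 * (o * (3 * m) + k) + 1) (5 * (o * (3 * m) + k)) :=
      Or.inr (Or.inr (Or.inr (Or.inr ⟨o, ho, k, hk, h1, Or.inl rfl, Or.inl rfl⟩)))
    have a3 : Arc m con (5 * (o * (3 * m) + k) + 2) (5 * (o * (3 * m) + k)) :=
      Or.inr (Or.inr (Or.inr (Or.inr ⟨o, ho, k, hk, h1, Or.inr rfl, Or.inl rfl⟩)))
    rw [List.mem_singleton] at hd
    subst hd
    refine ⟨by simp, ?_, ?_⟩
    · simp only [List.nodup_cons, List.mem_cons, List.not_mem_nil, or_false, not_or,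
        not_false_eq_true, List.nodup_nil, and_true]
      omega
    · intro i hi
      simp only [List.length_cons, List.length_nil, zero_add, Nat.reduceAdd] at hi ⊢
      obtain rfl | rfl | rfl : i = 0 ∨ i = 1 ∨ i = 2 := by omega
      · exact Or.inr a2
      · exact Or.inl a1
      · exact Or.inl a3
  · have a2 : Arc m con (5 * (o * (3 * m) + k) + 1) (5 * (o * (3 * m) + k)) :=
      Or.inr (Or.inr (Or.inr (Or.inr ⟨o, ho, k, hk, h1, Or.inl rfl, Or.inl rfl⟩)))
    have a3 : Arc m con (5 * (o * (3 * m) + k) + 2) (5 * (o * (3 * m) + k)) :=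
      Or.inr (Or.inr (Or.inr (Or.inr ⟨o, ho, k, hk, h1, Or.inr rfl, Or.inl rfl⟩)))
    have a4 : Arc m con (5 * (o * (3 * m) + k) + 1) (pv m con o k) :=
      Or.inr (Or.inr (Or.inr (Or.inr ⟨o, ho, k, hk, h1, Or.inl rfl, Or.inr rfl⟩)))
    have a5 : Arc m con (5 * (o * (3 * m) + k) + 2) (pv m con o k) :=
      Or.inr (Or.inr (Or.inr (Or.inr ⟨o, ho, k, hk, h1, Or.inr rfl, Or.inr rfl⟩)))
    rw [List.mem_singleton] at hd
    subst hd
    refine ⟨by simp, ?_, ?_⟩
    · simp only [List.nodup_cons, List.mem_cons, List.not_mem_nil, or_false, not_or,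
        not_false_eq_true, List.nodup_nil, and_true]
      omega
    · intro i hi
      simp only [List.length_cons, List.length_nil, zero_add, Nat.reduceAdd] at hi ⊢
      obtain rfl | rfl | rfl | rfl : i = 0 ∨ i = 1 ∨ i = 2 ∨ i = 3 := by omega
      · exact Or.inr a2
      · exact Or.inl a4
      · exact Or.inr a5
      · exact Or.inl a3
  · simp at hd

include hg hcon in
/-- The members of the gadget cycles. -/
theorem mem_gad {o k v : ℕ} (ho : o < 3 * m) (hk : k < 3 * m) : (∃ d ∈ gad m con g o k, v ∈ d) ↔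
    Ow con o k ∧ ((v = 5 * (o * (3 * m) + k) ∧ ¬ Sel g o) ∨ v = 5 * (o * (3 * m) + k) + 1 ∨
      v = 5 * (o * (3 * m) + k) + 2 ∨ (v = pv m con o k ∧ ¬ (con o k ∧ Sel g k))) := by
  have hno : ∀ o < 3 * m, ∀ k < 3 * m, Sel g o → Sel g k → ¬ con o k := by
    intro o ho k hk h1 h2 h3
    have := hcon (o / 3) (by omega) (k / 3) (by omega)
    rw [Sel] at h1 h2
    rw [h1, h2] at this
    exact this h3
  unfold gad
  split_ifs with h1 h2 h3
  · have h4 : ¬ (con o k ∧ Sel g k) := fun h => hno o ho k hk h2 h.2 h.1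
    simp only [List.mem_singleton, exists_eq_left, List.mem_cons, List.not_mem_nil, or_false, h1,
      h2, h4, true_and, not_true_eq_false, and_false, false_or, not_false_eq_true, and_true]
  · simp only [List.mem_singleton, exists_eq_left, List.mem_cons, List.not_mem_nil, or_false, h1,
      h2, h3, true_and, and_true, not_true_eq_false, and_false, not_false_eq_true]
  · simp only [List.mem_singleton, exists_eq_left, List.mem_cons, List.not_mem_nil, or_false, h1,
      h2, h3, true_and, and_true, not_false_eq_true]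
    tauto
  · simp [h1]

include hg hcs hir hcon in
theorem gad_disj {o k o' k' v : ℕ} (ho : o < 3 * m) (hk : k < 3 * m) (ho' : o' < 3 * m)
    (hk' : k' < 3 * m) (h : ∃ d ∈ gad m con g o k, v ∈ d) (h' : ∃ d ∈ gad m con g o' k', v ∈ d) :
    o = o' ∧ k = k' := by
  rw [mem_gad hg hcon ho hk] at h
  rw [mem_gad hg hcon ho' hk'] at h'
  obtain ⟨hw, h⟩ := h
  obtain ⟨hw', h'⟩ := h'
  have key : ∀ o k o' k', o < 3 * m → k < 3 * m → o' < 3 * m → k' < 3 * m → Ow con o k →
      Ow con o' k' → 5 * (o * (3 * m) + k) = pv m con o' k' → False := by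
    intro o k o' k' ho hk ho' hk' hw hw' he
    unfold pv at he
    split_ifs at he with hc
    · obtain ⟨rfl, rfl⟩ := cell_inj (N := 3 * m) (a := o) (b := k) (a' := k') (b' := o')
        (by omega) (by omega) (by omega)
      rcases hw with hw | hw
      · exact hw (hcs _ _ hc)
      · rcases hw' with hw' | hw'
        · exact hw' hc
        · omega
    · omega
  have hp := pv_mod (m := m) (con := con) o k
  have hp' := pv_mod (m := m) (con := con) o' k'
  rcases h with ⟨rfl, -⟩ | rfl | rfl | ⟨rfl, -⟩ <;>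
    rcases h' with ⟨h', -⟩ | h' | h' | ⟨h', -⟩
  · exact cell_inj (N := 3 * m) (by omega) (by omega) (by omega)
  · omega
  · omega
  · exact (key _ _ _ _ ho hk ho' hk' hw hw' h').elim
  · omega
  · exact cell_inj (N := 3 * m) (by omega) (by omega) (by omega)
  · omega
  · omega
  · omega
  · omega
  · exact cell_inj (N := 3 * m) (by omega) (by omega) (by omega)
  · omega
  · exact (key _ _ _ _ ho' hk' ho hk hw' hw h'.symm).elim
  · omega
  · omega
  · unfold pv at h'
    split_ifs at h' with c1 c2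
    · obtain ⟨rfl, rfl⟩ := cell_inj (N := 3 * m) (a := k) (b := o) (a' := k') (b' := o')
        (by omega) (by omega) (by omega)
      exact ⟨rfl, rfl⟩
    · omega
    · omega
    · exact cell_inj (N := 3 * m) (by omega) (by omega) (by omega)

include hg hcon in
theorem cc_disj {o k v : ℕ} (ho : o < 3 * m) (hk : k < 3 * m)
    (h : ∃ d ∈ gad m con g o k, v ∈ d) : v ∉ cc m g := by
  rw [mem_gad hg hcon ho hk] at h
  rw [mem_cc]
  have hp := pv_mod (m := m) (con := con) o k
  rintro (⟨j, hj, h'⟩ | ⟨j, hj, r, hr, h'⟩)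
  · rcases h.2 with ⟨h, -⟩ | h | h | ⟨h, -⟩ <;> omega
  · rcases h.2 with ⟨h, hs⟩ | h | h | ⟨h, hs⟩
    · obtain ⟨e, -⟩ := cell_inj (N := 3 * m) (a := o) (b := k) (a' := g j) (b' := r)
        (by omega) (by omega) (by omega)
      refine hs ?_
      rw [Sel, e, (hg j hj).2]
    · omega
    · omega
    · unfold pv at h
      split_ifs at h with hc
      · obtain ⟨e, -⟩ := cell_inj (N := 3 * m) (a := k) (b := o) (a' := g j) (b' := r)
          (by omega) (by omega) (by omega)
        refine hs ⟨hc, ?_⟩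
        rw [Sel, e, (hg j hj).2]
      · omega

theorem mem_ccs {d : List ℕ} : d ∈ ccs m con g ↔ ∃ o < 3 * m, ∃ k < 3 * m, d ∈ gad m con g o k := by
  unfold ccs
  simp only [List.mem_flatMap, List.mem_range]

include hg hcs hir hcon in
theorem mem_all {v : ℕ} : v ∈ (cc m g :: ccs m con g).flatten ↔ InV m con v := by
  rw [List.flatten_cons, List.mem_append, List.mem_flatten]
  have hno : ∀ o < 3 * m, ∀ k < 3 * m, Sel g o → Sel g k → ¬ con o k := by
    intro o ho k hk h1 h2 h3
    have := hcon (o / 3) (by omega) (k / 3) (by omega)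
    rw [Sel] at h1 h2
    rw [h1, h2] at this
    exact this h3
  constructor
  · rintro (h | ⟨d, hd, hv⟩)
    · rcases mem_cc.1 h with ⟨j, hj, h⟩ | ⟨j, hj, k, hk, h⟩
      · exact Or.inl ⟨j, hj, h⟩
      · rw [h]
        exact inV_w (hg j hj).1 hk
    · obtain ⟨o, ho, k, hk, hd⟩ := mem_ccs.1 hd
      obtain ⟨hw, h⟩ := (mem_gad hg hcon ho hk).1 ⟨d, hd, hv⟩
      rcases h with ⟨h, -⟩ | h | h | ⟨h, -⟩ <;> rw [h]
      · exact inV_w ho hk
      · exact inV_a ho hk hw
      · exact inV_b ho hk hw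
      · exact inV_pv ho hk
  · have inG : ∀ o < 3 * m, ∀ k < 3 * m, (∃ d ∈ gad m con g o k, v ∈ d) →
        ∃ d, d ∈ ccs m con g ∧ v ∈ d := by
      rintro o ho k hk ⟨d, hd, hv⟩
      exact ⟨d, mem_ccs.2 ⟨o, ho, k, hk, hd⟩, hv⟩
    rintro (⟨j, hj, h⟩ | ⟨o, ho, k, hk, h | ⟨hw, h⟩ | ⟨hc, h⟩⟩)
    · exact Or.inl (mem_cc.2 (Or.inl ⟨j, hj, h⟩))
    · by_cases hs : Sel g o
      · left
        refine mem_cc.2 (Or.inr ⟨o / 3, by omega, k, hk, ?_⟩)
        rw [Sel] at hs
        rw [hs]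
        exact h
      · right
        by_cases hw : Ow con o k
        · exact inG o ho k hk ((mem_gad hg hcon ho hk).2 ⟨hw, Or.inl ⟨h, hs⟩⟩)
        · have hw' := hw
          rw [Ow, not_or, not_not] at hw'
          have hok : k < o := by
            rcases lt_or_eq_of_le (not_lt.1 hw'.2) with h | h
            · exact h
            · rw [h] at hw'
              exact absurd hw'.1 (hir _)
          refine inG k hk o ho ((mem_gad hg hcon hk ho).2 ⟨Or.inr hok, Or.inr (Or.inr (Or.inr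
            ⟨?_, fun h => hs h.2⟩))⟩)
          rw [pv, if_pos (hcs _ _ hw'.1)]
          exact h
    · right
      refine inG o ho k hk ((mem_gad hg hcon ho hk).2 ⟨hw, ?_⟩)
      rcases h with h | h
      · exact Or.inr (Or.inl h)
      · exact Or.inr (Or.inr (Or.inl h))
    · right
      refine inG o ho k hk ((mem_gad hg hcon ho hk).2 ⟨Or.inl hc, Or.inr (Or.inr (Or.inr
        ⟨?_, fun h => hc h.1⟩))⟩)
      rw [pv, if_neg hc]
      exact h

include hg hcs hir hcon in
theorem nodup_all : (cc m g :: ccs m con g).flatten.Nodup := by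
  rw [List.flatten_cons, List.nodup_append']
  refine ⟨nodup_cc hg, ?_, ?_⟩
  · rw [List.nodup_flatten]
    constructor
    · intro d hd
      obtain ⟨o, ho, k, hk, hd⟩ := mem_ccs.1 hd
      exact (isCycle_gad hir ho hk hd).2.1
    · unfold ccs
      rw [List.pairwise_flatMap]
      constructor
      · intro o ho
        rw [List.pairwise_flatMap]
        constructor
        · intro k hk
          unfold gad
          split_ifs <;> simp
        · refine List.Pairwise.imp_of_mem ?_ (List.pairwise_lt_range (n := 3 * m))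
          intro k k' hk hk' hlt x hx y hy v hv hv'
          have := gad_disj hg hcs hir hcon (List.mem_range.1 ho) (List.mem_range.1 hk)
            (List.mem_range.1 ho) (List.mem_range.1 hk') ⟨x, hx, hv⟩ ⟨y, hy, hv'⟩
          omega
      · refine List.Pairwise.imp_of_mem ?_ (List.pairwise_lt_range (n := 3 * m))
        intro o o' ho ho' hlt x hx y hy v hv hv'
        rw [List.mem_flatMap] at hx hy
        obtain ⟨k, hk, hx⟩ := hx
        obtain ⟨k', hk', hy⟩ := hy
        have := gad_disj hg hcs hir hcon (List.mem_range.1 ho) (List.mem_range.1 hk)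
          (List.mem_range.1 ho') (List.mem_range.1 hk') ⟨x, hx, hv⟩ ⟨y, hy, hv'⟩
        omega
  · intro v hv hv'
    rw [List.mem_flatten] at hv'
    obtain ⟨d, hd, hvd⟩ := hv'
    obtain ⟨o, ho, k, hk, hd⟩ := mem_ccs.1 hd
    exact cc_disj hg hcon ho hk ⟨d, hd, hvd⟩ hv

end Build

end Pool.Agent.R544.TF
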