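import Mathlib

/-!
# 2-factors with one directed cycle: the problem
-/

namespace Pool.Agent.R544.TF

/-- An instance `(V, A)`: the list of the vertices and the list of the arcs. -/
abbrev Inst : Type := List ℕ × List (ℕ × ℕ)

/-- The instance is a finite digraph without loops and parallel arcs (opposite arcs are allowed). -/
def IsDigraph (I : Inst) : Prop :=
  I.1.Nodup ∧ I.2.Nodup ∧ ∀ a ∈ I.2, a.1 ∈ I.1 ∧ a.2 ∈ I.1 ∧ a.1 ≠ a.2

/-- Adjacency in the underlying simple graph `UG(D)`. -/
def Adj (I : Inst) (u v : ℕ) : Prop := (u, v) ∈ I.2 ∨ (v, u) ∈ I.2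

/-- The list `c` has at least three entries, they are different, and every entry is related by `r`
to the next one, cyclically. -/
def IsCycle (r : ℕ → ℕ → Prop) (c : List ℕ) : Prop :=
  3 ≤ c.length ∧ c.Nodup ∧ ∀ i < c.length, r (c.getD i 0) (c.getD ((i + 1) % c.length) 0)

/-- `UG(D)` has a 2-factor, that is, a family `c, cs` of vertex-disjoint cycles of length at least
`3` which cover all the vertices, such that `c` is a directed cycle of `D`. -/
def TwoFactorDir (I : Inst) : Prop :=
  IsDigraph I ∧ ∃ (c : List ℕ) (cs : List (List ℕ)), IsCycle (fun u v => (u, v) ∈ I.2) c ∧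
    (∀ d ∈ cs, IsCycle (Adj I) d) ∧ (c :: cs).flatten.Nodup ∧
      ∀ v, v ∈ (c :: cs).flatten ↔ v ∈ I.1

end Pool.Agent.R544.TF
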