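import Pool.Agent.R544.Lits
import Pool.Agent.R544.TF.Core

/-!
# 2-factors with one directed cycle: the reduction from 3SAT and membership in NP
-/

set_option autoImplicit false

namespace Pool.Agent.R544.TF

open Pool.Agent.NPC Pool.Agent.R544

/-- The occurrences number `o` and `k` are contradictory. -/
def con (φ : F3) (o k : ℕ) : Prop := (lt φ o).2 = (lt φ k).2 ∧ (lt φ o).1 ≠ (lt φ k).1

/-- Bounded existential quantification. -/
theorem pp_exlt {α : Type} [TEnc α] {n : α → ℕ} {r : α → ℕ → Prop} (hn : UPoly n)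
    (hr : PP (fun x : α × ℕ => r x.1 x.2)) : PP (fun a => ∃ x < n a, r a x) :=
  PP.congr (PP.bex (l := fun a => List.range (n a)) hn.range hr) fun a => by
    simp only [List.mem_range]

theorem uPoly_3m {α : Type} [TEnc α] {f : α → F3} (hf : NPC.Poly f) :
    UPoly (fun a => 3 * (f a).length) := UPoly.mul (UPoly.const 3) (UPoly.length hf)

/-- A bound for the vertices. -/
def bd (φ : F3) : ℕ := 5 * (3 * φ.length * (3 * φ.length) + φ.length + 1)

open Classical in
/-- The vertices. -/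
noncomputable def lV (φ : F3) : List ℕ :=
  (List.range (bd φ)).filter (fun v => decide (InV φ.length (con φ) v))

open Classical in
/-- The instance. -/
noncomputable def red (φ : F3) : Inst :=
  (lV φ, (lV φ ×ˢ lV φ).filter (fun a => decide (Arc φ.length (con φ) a.1 a.2)))

theorem uPoly_bd : UPoly bd := by
  unfold bd
  have h : UPoly (fun φ : F3 => φ.length) := UPoly.length (by fun_prop)
  have h' : UPoly (fun φ : F3 => 3 * φ.length) := uPoly_3m (by fun_prop)
  exact UPoly.mul (UPoly.const 5) (UPoly.add (UPoly.add (UPoly.mul h' h') h) (UPoly.const 1))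

theorem pp_con {α : Type} [TEnc α] {f : α → F3} {g h : α → ℕ} (hf : NPC.Poly f) (hg : NPC.Poly g)
    (hh : NPC.Poly h) : PP (fun a => con (f a) (g a) (h a)) := by
  unfold con
  exact PP.and (PP.eq (by fun_prop) (by fun_prop)) (PP.ne (by fun_prop) (by fun_prop))

theorem pp_ow {α : Type} [TEnc α] {f : α → F3} {g h : α → ℕ} (hf : NPC.Poly f) (hg : NPC.Poly g)
    (hh : NPC.Poly h) : PP (fun a => Ow (con (f a)) (g a) (h a)) := by
  unfold Ow
  exact PP.or (PP.not (pp_con hf hg hh)) (PP.lt hg hh)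

theorem poly_pv {α : Type} [TEnc α] {f : α → F3} {g h : α → ℕ} (hf : NPC.Poly f)
    (hg : NPC.Poly g) (hh : NPC.Poly h) :
    NPC.Poly (fun a => pv (f a).length (con (f a)) (g a) (h a)) := by
  classical
  unfold pv
  exact PP.ite (pp_con hf hg hh) (by fun_prop) (by fun_prop)

theorem pp_inV : PP (fun x : F3 × ℕ => InV x.1.length (con x.1) x.2) := by
  unfold InV
  refine PP.or (pp_exlt (UPoly.length (by fun_prop)) (PP.eq (by fun_prop) (by fun_prop)))
    (pp_exlt (r := fun (x : F3 × ℕ) o => ∃ k < 3 * x.1.length, x.2 = 5 * (o * (3 * x.1.length) + k) ∨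
    (Ow (con x.1) o k ∧ (x.2 = 5 * (o * (3 * x.1.length) + k) + 1 ∨
      x.2 = 5 * (o * (3 * x.1.length) + k) + 2)) ∨
    (¬ con x.1 o k ∧ x.2 = 5 * (o * (3 * x.1.length) + k) + 3)) (uPoly_3m (by fun_prop))
    (pp_exlt (r := fun (x : (F3 × ℕ) × ℕ) k => x.1.2 = 5 * (x.2 * (3 * x.1.1.length) + k) ∨
    (Ow (con x.1.1) x.2 k ∧ (x.1.2 = 5 * (x.2 * (3 * x.1.1.length) + k) + 1 ∨
      x.1.2 = 5 * (x.2 * (3 * x.1.1.length) + k) + 2)) ∨
    (¬ con x.1.1 x.2 k ∧ x.1.2 = 5 * (x.2 * (3 * x.1.1.length) + k) + 3))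
    (uPoly_3m (by fun_prop)) ?_))
  exact PP.or (PP.eq (by fun_prop) (by fun_prop)) (PP.or
    (PP.and (pp_ow (by fun_prop) (by fun_prop) (by fun_prop))
      (PP.or (PP.eq (by fun_prop) (by fun_prop)) (PP.eq (by fun_prop) (by fun_prop))))
    (PP.and (PP.not (pp_con (by fun_prop) (by fun_prop) (by fun_prop)))
      (PP.eq (by fun_prop) (by fun_prop))))

theorem pp_arc : PP (fun x : F3 × (ℕ × ℕ) => Arc x.1.length (con x.1) x.2.1 x.2.2) := by
  unfold Arc
  refine PP.or ?_ (PP.or ?_ (PP.or ?_ (PP.or ?_ ?_)))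
  · exact pp_exlt (r := fun (x : F3 × (ℕ × ℕ)) o => x.2.1 = 5 * (o / 3) + 4 ∧
      x.2.2 = 5 * (o * (3 * x.1.length))) (uPoly_3m (by fun_prop))
      (PP.and (PP.eq (by fun_prop) (by fun_prop)) (PP.eq (by fun_prop) (by fun_prop)))
  · exact pp_exlt (r := fun (x : F3 × (ℕ × ℕ)) o => ∃ k < 3 * x.1.length, k + 1 < 3 * x.1.length ∧
      x.2.1 = 5 * (o * (3 * x.1.length) + k) ∧ x.2.2 = 5 * (o * (3 * x.1.length) + (k + 1)))
      (uPoly_3m (by fun_prop))
      (pp_exlt (r := fun (x : (F3 × (ℕ × ℕ)) × ℕ) k => k + 1 < 3 * x.1.1.length ∧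
      x.1.2.1 = 5 * (x.2 * (3 * x.1.1.length) + k) ∧
      x.1.2.2 = 5 * (x.2 * (3 * x.1.1.length) + (k + 1))) (uPoly_3m (by fun_prop))
      (PP.and (PP.lt (by fun_prop) (by fun_prop))
        (PP.and (PP.eq (by fun_prop) (by fun_prop)) (PP.eq (by fun_prop) (by fun_prop)))))
  · exact pp_exlt (r := fun (x : F3 × (ℕ × ℕ)) o =>
      x.2.1 = 5 * (o * (3 * x.1.length) + (3 * x.1.length - 1)) ∧
      x.2.2 = 5 * ((o / 3 + 1) % x.1.length) + 4) (uPoly_3m (by fun_prop))
      (PP.and (PP.eq (by fun_prop) (by fun_prop)) (PP.eq (by fun_prop) (by fun_prop)))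
  · exact pp_exlt (r := fun (x : F3 × (ℕ × ℕ)) o => ∃ k < 3 * x.1.length, Ow (con x.1) o k ∧
      x.2.1 = 5 * (o * (3 * x.1.length) + k) + 1 ∧ x.2.2 = 5 * (o * (3 * x.1.length) + k) + 2)
      (uPoly_3m (by fun_prop))
      (pp_exlt (r := fun (x : (F3 × (ℕ × ℕ)) × ℕ) k => Ow (con x.1.1) x.2 k ∧
      x.1.2.1 = 5 * (x.2 * (3 * x.1.1.length) + k) + 1 ∧
      x.1.2.2 = 5 * (x.2 * (3 * x.1.1.length) + k) + 2) (uPoly_3m (by fun_prop))
      (PP.and (pp_ow (by fun_prop) (by fun_prop) (by fun_prop))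
        (PP.and (PP.eq (by fun_prop) (by fun_prop)) (PP.eq (by fun_prop) (by fun_prop)))))
  · refine pp_exlt (r := fun (x : F3 × (ℕ × ℕ)) o => ∃ k < 3 * x.1.length, Ow (con x.1) o k ∧
      (x.2.1 = 5 * (o * (3 * x.1.length) + k) + 1 ∨ x.2.1 = 5 * (o * (3 * x.1.length) + k) + 2) ∧
      (x.2.2 = 5 * (o * (3 * x.1.length) + k) ∨ x.2.2 = pv x.1.length (con x.1) o k))
      (uPoly_3m (by fun_prop))
      (pp_exlt (r := fun (x : (F3 × (ℕ × ℕ)) × ℕ) k => Ow (con x.1.1) x.2 k ∧
      (x.1.2.1 = 5 * (x.2 * (3 * x.1.1.length) + k) + 1 ∨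
      x.1.2.1 = 5 * (x.2 * (3 * x.1.1.length) + k) + 2) ∧
      (x.1.2.2 = 5 * (x.2 * (3 * x.1.1.length) + k) ∨
      x.1.2.2 = pv x.1.1.length (con x.1.1) x.2 k)) (uPoly_3m (by fun_prop)) ?_)
    exact PP.and (pp_ow (by fun_prop) (by fun_prop) (by fun_prop)) (PP.and
      (PP.or (PP.eq (by fun_prop) (by fun_prop)) (PP.eq (by fun_prop) (by fun_prop)))
      (PP.or (PP.eq (by fun_prop) (by fun_prop))
        (PP.eq (by fun_prop) (poly_pv (by fun_prop) (by fun_prop) (by fun_prop)))))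

theorem poly_lV : NPC.Poly lV := by
  classical
  exact PP.filter (l := fun φ => List.range (bd φ)) uPoly_bd.range pp_inV

theorem poly_red : NPC.Poly red := by
  classical
  have h1 := poly_lV
  have h4 : NPC.Poly (fun φ : F3 => lV φ ×ˢ lV φ) := by fun_prop
  exact NPC.Poly.pair h1 (PP.filter (l := fun φ : F3 => lV φ ×ˢ lV φ)
    (r := fun (φ : F3) (a : ℕ × ℕ) => Arc φ.length (con φ) a.1 a.2) h4 pp_arc)

/-! ### Correctness -/

theorem cell_lt' {N o k : ℕ} (ho : o < N) (hk : k < N) : o * N + k < N * N :=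
  calc o * N + k < o * N + N := by omega
    _ = (o + 1) * N := by ring
    _ ≤ N * N := Nat.mul_le_mul_right _ ho

theorem mem_lV {φ : F3} {v : ℕ} : v ∈ lV φ ↔ InV φ.length (con φ) v := by
  classical
  unfold lV
  rw [List.mem_filter, List.mem_range, decide_eq_true_iff]
  refine ⟨fun h => h.2, fun h => ⟨?_, h⟩⟩
  unfold bd
  rcases h with ⟨j, hj, h⟩ | ⟨o, ho, k, hk, h | ⟨_, h⟩ | ⟨_, h⟩⟩
  · omega
  · have := cell_lt' ho hk
    omega
  · have := cell_lt' ho hk
    omega
  · have := cell_lt' ho hk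
    omega

theorem mem_A {φ : F3} {u v : ℕ} : (u, v) ∈ (red φ).2 ↔ Arc φ.length (con φ) u v := by
  unfold red
  simp only [List.mem_filter, List.mem_product, decide_eq_true_eq, mem_lV]
  exact ⟨fun h => h.2, fun h => ⟨arc_inV h, h⟩⟩

theorem isDigraph_red (φ : F3) : IsDigraph (red φ) := by
  refine ⟨List.nodup_range.filter _, ?_, ?_⟩
  · exact (List.Nodup.product (List.nodup_range.filter _) (List.nodup_range.filter _)).filter _
  · rintro ⟨u, v⟩ he
    have := mem_A.1 he
    exact ⟨mem_lV.2 (arc_inV this).1, mem_lV.2 (arc_inV this).2, arc_ne this⟩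

theorem con_symm (φ : F3) (o k : ℕ) (h : con φ o k) : con φ k o := ⟨h.1.symm, h.2.symm⟩

theorem con_irrefl (φ : F3) (o : ℕ) : ¬ con φ o o := fun h => h.2 rfl

theorem IsCycle.mono {r r' : ℕ → ℕ → Prop} {c : List ℕ} (h : IsCycle r c)
    (hr : ∀ u v, r u v → r' u v) : IsCycle r' c :=
  ⟨h.1, h.2.1, fun i hi => hr _ _ (h.2.2 i hi)⟩

theorem red_correct {φ : F3} (hne : φ ≠ []) : SAT3 φ ↔ TwoFactorDir (red φ) := by
  have hm : 0 < φ.length := List.length_pos_of_ne_nil hne
  have hV : ∀ u, u ∈ (red φ).1 ↔ InV φ.length (con φ) u := fun u => mem_lV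
  rw [sat3_iff]
  constructor
  · rintro ⟨τ, hτ⟩
    choose! g hg1 hg2 hg3 using hτ
    have hg : ∀ j < φ.length, g j < 3 * φ.length ∧ g j / 3 = j := fun j hj =>
      ⟨hg1 j hj, hg2 j hj⟩
    have hcon : ∀ i < φ.length, ∀ j < φ.length, ¬ con φ (g i) (g j) := by
      intro i hi j hj h
      refine h.2 ?_
      rw [← hg3 i hi, ← hg3 j hj, h.1]
    refine ⟨isDigraph_red φ, cc φ.length g, ccs φ.length (con φ) g, ?_, ?_, ?_, ?_⟩
    · exact (isCycle_cc (con := con φ) hm hg).mono fun u v h => mem_A.2 h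
    · intro d hd
      obtain ⟨o, ho, k, hk, hd⟩ := mem_ccs.1 hd
      exact (isCycle_gad (con_irrefl φ) ho hk hd).mono fun u v h =>
        h.imp (fun h => mem_A.2 h) (fun h => mem_A.2 h)
    · exact nodup_all hg (con_symm φ) (con_irrefl φ) hcon
    · intro v
      rw [hV]
      exact mem_all hg (con_symm φ) (con_irrefl φ) hcon
  · rintro ⟨-, c, cs, h1, h2, h3, h4⟩
    obtain ⟨g, hg, hcon⟩ := fwd (m := φ.length) (con := con φ) (con_symm φ) (con_irrefl φ)
      (h1.mono fun u v h => mem_A.1 h)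
      (fun d hd => (h2 d hd).mono fun u v h => h.imp (fun h => mem_A.1 h) (fun h => mem_A.1 h))
      h3 (fun v hv => (h4 v).2 ((hV v).2 hv))
    classical
    refine ⟨fun x => decide (∃ j < φ.length, lt φ (g j) = (true, x)), fun j hj => ?_⟩
    refine ⟨g j, (hg j hj).1, (hg j hj).2, ?_⟩
    cases hb : (lt φ (g j)).1 with
    | true =>
      rw [decide_eq_true_iff]
      exact ⟨j, hj, by rw [← hb]⟩
    | false =>
      rw [decide_eq_false_iff_not]
      rintro ⟨i, hi, h⟩
      refine hcon i hi j hj ⟨by rw [h], ?_⟩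
      rw [h, hb]
      simp

theorem hardPr_TF : HardPr IsDigraph TwoFactorDir :=
  hardPr_SAT3b.trans poly_red (fun φ _ => isDigraph_red φ) fun _ h => red_correct h.2.2

/-! ### Membership in NP -/

/-- The test of a certificate. -/
def Ver (I : Inst) (w : List ℕ × List (List ℕ)) : Prop :=
  IsDigraph I ∧ IsCycle (fun u v => (u, v) ∈ I.2) w.1 ∧ (∀ d ∈ w.2, IsCycle (Adj I) d) ∧
    (w.1 :: w.2).flatten.Nodup ∧ (∀ v ∈ (w.1 :: w.2).flatten, v ∈ I.1) ∧
      ∀ v ∈ I.1, v ∈ (w.1 :: w.2).flatten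

theorem pp_isDigraph : PP IsDigraph := by
  unfold IsDigraph
  refine PP.and (Pool.Agent.Y592.OP.pp_nodup (by fun_prop)) (PP.and
    (Pool.Agent.Y592.OP.pp_nodup (by fun_prop)) ?_)
  exact PP.ball (l := fun I : Inst => I.2) (r := fun I a => a.1 ∈ I.1 ∧ a.2 ∈ I.1 ∧ a.1 ≠ a.2)
    (by fun_prop) (PP.and (PP.mem (by fun_prop) (by fun_prop))
      (PP.and (PP.mem (by fun_prop) (by fun_prop)) (PP.ne (by fun_prop) (by fun_prop))))

theorem pp_alllt {α : Type} [TEnc α] {n : α → ℕ} {r : α → ℕ → Prop} (hn : UPoly n)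
    (hr : PP (fun x : α × ℕ => r x.1 x.2)) : PP (fun a => ∀ x < n a, r a x) :=
  PP.congr (PP.ball (l := fun a => List.range (n a)) hn.range hr) fun a => by
    simp only [List.mem_range]

/-- Being a cycle, for a relation that can be decided in polynomial time. -/
theorem pp_isCycle {α : Type} [TEnc α] {r : α → ℕ → ℕ → Prop} {c : α → List ℕ}
    (hc : NPC.Poly c) (hr : PP (fun x : α × (ℕ × ℕ) => r x.1 x.2.1 x.2.2)) :
    PP (fun a => IsCycle (r a) (c a)) := by
  unfold IsCycle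
  refine PP.and (PP.le (by fun_prop) (by fun_prop)) (PP.and
    (Pool.Agent.Y592.OP.pp_nodup (by fun_prop)) ?_)
  refine pp_alllt (n := fun a => (c a).length)
    (r := fun a i => r a ((c a).getD i 0) ((c a).getD ((i + 1) % (c a).length) 0))
    (UPoly.length hc) ?_
  exact hr.comp (f := fun x : α × ℕ => (x.1, ((c x.1).getD x.2 0,
    (c x.1).getD ((x.2 + 1) % (c x.1).length) 0))) (by fun_prop)

theorem pp_ver : PP (fun x : Inst × (List ℕ × List (List ℕ)) => Ver x.1 x.2) := by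
  unfold Ver Adj
  refine PP.and (pp_isDigraph.comp (by fun_prop)) (PP.and ?_ (PP.and ?_ (PP.and
    (Pool.Agent.Y592.OP.pp_nodup (by fun_prop)) (PP.and ?_ ?_))))
  · exact pp_isCycle (α := Inst × (List ℕ × List (List ℕ))) (r := fun x u v => (u, v) ∈ x.1.2)
      (c := fun x => x.2.1) (by fun_prop) (PP.mem (by fun_prop) (by fun_prop))
  · refine PP.ball (l := fun x : Inst × (List ℕ × List (List ℕ)) => x.2.2)
      (r := fun x d => IsCycle (fun u v => (u, v) ∈ x.1.2 ∨ (v, u) ∈ x.1.2) d) (by fun_prop) ?_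
    exact pp_isCycle (α := (Inst × (List ℕ × List (List ℕ))) × List ℕ)
      (r := fun x u v => (u, v) ∈ x.1.1.2 ∨ (v, u) ∈ x.1.1.2)
      (c := fun x => x.2) (by fun_prop) (PP.or (PP.mem (by fun_prop) (by fun_prop))
        (PP.mem (by fun_prop) (by fun_prop)))
  · exact PP.ball (l := fun x : Inst × (List ℕ × List (List ℕ)) => (x.2.1 :: x.2.2).flatten)
      (r := fun x v => v ∈ x.1.1) (by fun_prop) (PP.mem (by fun_prop) (by fun_prop))
  · exact PP.ball (l := fun x : Inst × (List ℕ × List (List ℕ)) => x.1.1)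
      (r := fun x v => v ∈ (x.2.1 :: x.2.2).flatten) (by fun_prop)
      (PP.mem (by fun_prop) (by fun_prop))

theorem sz_perm {β : Type} [TEnc β] {l l' : List β} (h : l.Perm l') : sz l = sz l' := by
  induction h with
  | nil => rfl
  | cons a _ ih => simp; omega
  | swap a b l => simp; omega
  | trans _ _ h1 h2 => exact h1.trans h2

theorem sz_nodup_subset {β : Type} [TEnc β] [DecidableEq β] {l l' : List β} (h : l.Nodup)
    (h' : ∀ a ∈ l, a ∈ l') : sz l ≤ sz l' := by
  obtain ⟨l'', hp, hs⟩ := h.subperm h'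
  rw [← sz_perm hp]
  exact sz_sublist hs

theorem sz_flatten {β : Type} [TEnc β] (L : List (List β)) :
    sz L = sz L.flatten + 2 * L.length := by
  induction L with
  | nil => simp
  | cons d L ih =>
    have := sz_append d L.flatten
    simp only [List.flatten_cons, sz_list_cons, List.length_cons]
    omega

theorem length_le_flatten {β : Type} (L : List (List β)) (h : ∀ d ∈ L, d ≠ []) :
    L.length ≤ L.flatten.length := by
  induction L with
  | nil => simp
  | cons d L ih =>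
    have h1 := ih fun d hd => h d (List.mem_cons_of_mem _ hd)
    have h2 := List.length_pos_of_ne_nil (h d (by simp))
    rw [List.flatten_cons, List.length_append, List.length_cons]
    omega

theorem length_le_sz {β : Type} [TEnc β] (l : List β) : l.length ≤ sz l := by
  induction l with
  | nil => simp
  | cons a l ih =>
    rw [List.length_cons, sz_list_cons]
    omega

theorem ver_of {I : Inst} (h : TwoFactorDir I) : ∃ w : List ℕ × List (List ℕ),
    sz w ≤ (3 * Polynomial.X : Polynomial ℕ).eval (sz I) ∧ Ver I w := by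
  obtain ⟨h1, c, cs, h2, h3, h4, h5⟩ := h
  refine ⟨(c, cs), ?_, h1, h2, h3, h4, fun v hv => (h5 v).1 hv, fun v hv => (h5 v).2 hv⟩
  have e1 : sz (c, cs) = sz (c :: cs) := by
    rw [sz_pair, sz_list_cons]
  have e2 := sz_flatten (c :: cs)
  have e3 : (c :: cs).length ≤ (c :: cs).flatten.length := by
    refine length_le_flatten _ fun d hd => ?_
    rintro rfl
    rcases List.mem_cons.1 hd with rfl | hd
    · have := h2.1
      simp at this
    · have := (h3 _ hd).1
      simp at this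
  have e4 := length_le_sz (c :: cs).flatten
  have e5 : sz (c :: cs).flatten ≤ sz I.1 := sz_nodup_subset h4 fun v hv => (h5 v).1 hv
  have e6 : sz I.1 ≤ sz I := by
    obtain ⟨a, b⟩ := I
    simp
    omega
  simp only [Polynomial.eval_mul, Polynomial.eval_X, Polynomial.eval_ofNat]
  omega

theorem of_ver {I : Inst} {w : List ℕ × List (List ℕ)} (h : Ver I w) : TwoFactorDir I := by
  obtain ⟨h1, h2, h3, h4, h5, h6⟩ := h
  exact ⟨h1, w.1, w.2, h2, h3, h4, fun v => ⟨h5 v, h6 v⟩⟩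

theorem inNPP : InNPP TwoFactorDir :=
  inNPP_of_pp pp_ver (3 * Polynomial.X) (fun _ h => ver_of h) fun _ _ h => of_ver h

end Pool.Agent.R544.TF
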